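import Mathlib

/-!
# Convex hull of Tverberg points versus the core (MP_8fed12_co)

For all `d ≥ 3` and `τ ≥ 3` there is a set `S` of `(τ-1)(d+1)+1` points of `ℝ^d` whose
`(τ-1)`-core is strictly larger than the convex hull of its Tverberg points.
-/

set_option autoImplicit false

open Set

namespace Pool.Agent.Results.MP_8fed12_co.TverbergCore

/-- `D_τ(S)`: the points lying in the convex hull of every part of some partition of `S` into
`τ` pairwise disjoint parts. -/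
def tverbergPoints {d : ℕ} (τ : ℕ) (S : Set (Fin d → ℝ)) : Set (Fin d → ℝ) :=
  {p | ∃ P : Fin τ → Set (Fin d → ℝ), (∀ i j, i ≠ j → Disjoint (P i) (P j)) ∧ (⋃ i, P i) = S ∧
    ∀ i, p ∈ convexHull ℝ (P i)}

/-- The `σ`-core of `S`: the intersection of the convex hulls of `S \ T` over all `T ⊆ S` with at
most `σ` points. -/
def core {d : ℕ} (σ : ℕ) (S : Set (Fin d → ℝ)) : Set (Fin d → ℝ) :=
  {p | ∀ T : Finset (Fin d → ℝ), (T : Set (Fin d → ℝ)) ⊆ S → T.card ≤ σ →
    p ∈ convexHull ℝ (S \ (T : Set (Fin d → ℝ)))}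

theorem core_convex {d : ℕ} (σ : ℕ) (S : Set (Fin d → ℝ)) : Convex ℝ (core σ S) := by
  intro x hx y hy a b ha hb hab T hT hc
  exact convex_convexHull ℝ _ (hx T hT hc) (hy T hT hc) ha hb hab

/-- The general inclusion. -/
theorem tverberg_subset_core {d : ℕ} (τ : ℕ) (hτ : 1 ≤ τ) (S : Set (Fin d → ℝ)) :
    tverbergPoints τ S ⊆ core (τ - 1) S := by
  classical
  rintro p ⟨P, hdis, hU, hp⟩ T hT hc
  -- some part misses `T`
  by_contra hcon
  have hhit : ∀ i, ∃ x ∈ T, x ∈ P i := by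
    intro i
    by_contra h
    push Not at h
    apply hcon
    refine convexHull_mono ?_ (hp i)
    intro x hx
    refine ⟨hU ▸ mem_iUnion.2 ⟨i, hx⟩, fun hxT => h x hxT hx⟩
  choose f hfT hfP using hhit
  have hinj : Function.Injective f := by
    intro i j hij
    by_contra hne
    exact Set.disjoint_left.1 (hdis i j hne) (hfP i) (hij ▸ hfP j)
  have h1 : (Finset.univ.image f).card = τ := by
    rw [Finset.card_image_of_injective _ hinj]; simp
  have h2 : Finset.univ.image f ⊆ T := by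
    intro x hx
    obtain ⟨i, _, rfl⟩ := Finset.mem_image.1 hx
    exact hfT i
  have := Finset.card_le_card h2
  omega

/-- The point of `ℝ^d` with first three coordinates `a` and the others zero. -/
def mk (d : ℕ) (a : ℤ × ℤ × ℤ) : Fin d → ℝ := fun i =>
  if i.val = 0 then (a.1 : ℝ) else if i.val = 1 then (a.2.1 : ℝ)
  else if i.val = 2 then (a.2.2 : ℝ) else 0

/-- The axis points with first coordinate in `[a, b]`. -/
noncomputable def Z (a b : ℤ) : Finset (ℤ × ℤ × ℤ) := Finset.Icc a b ×ˢ {((0 : ℤ), (0 : ℤ))}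

/-- The six further points. -/
def B : Finset (ℤ × ℤ × ℤ) :=
  {(-1, 1, -1), (-1, -1, -1), (-1, -1, 2), (1, 0, 1), (2, 2, -1), (2, -1, -1)}

/-- The index set. -/
noncomputable def T0 (d τ : ℕ) : Finset (ℤ × ℤ × ℤ) :=
  Z (-((τ : ℤ) - 3)) (((τ : ℤ) - 1) * d - 4) ∪ B

theorem mem_Z {a b : ℤ} {x : ℤ × ℤ × ℤ} : x ∈ Z a b ↔ (a ≤ x.1 ∧ x.1 ≤ b) ∧ x.2 = (0, 0) := by
  rw [Z, Finset.mem_product, Finset.mem_Icc, Finset.mem_singleton]

theorem mem_B {x : ℤ × ℤ × ℤ} : x ∈ B ↔ x = (-1, 1, -1) ∨ x = (-1, -1, -1) ∨ x = (-1, -1, 2) ∨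
    x = (1, 0, 1) ∨ x = (2, 2, -1) ∨ x = (2, -1, -1) := by
  simp [B]

theorem mk_inj {d : ℕ} (hd : 3 ≤ d) : Function.Injective (mk d) := by
  intro a b h
  have h0 := congrFun h ⟨0, by omega⟩
  have h1 := congrFun h ⟨1, by omega⟩
  have h2 := congrFun h ⟨2, by omega⟩
  simp only [mk] at h0 h1 h2
  simp at h0 h1 h2
  exact Prod.ext h0 (Prod.ext h1 h2)

theorem mk_zero (d : ℕ) : mk d (0, 0, 0) = 0 := by
  funext i; simp [mk]

theorem card_T0 {d τ : ℕ} (hd : 3 ≤ d) (hτ : 3 ≤ τ) : (T0 d τ).card = (τ - 1) * (d + 1) + 1 := by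
  have hB : B.card = 6 := by decide
  have hdis : Disjoint (Z (-((τ : ℤ) - 3)) (((τ : ℤ) - 1) * d - 4)) B := by
    rw [Finset.disjoint_left]
    intro x hx hB
    rw [mem_Z] at hx
    rw [mem_B] at hB
    rcases hB with h | h | h | h | h | h <;> rw [h] at hx <;> simp at hx
  obtain ⟨t, rfl⟩ : ∃ t, τ = t + 3 := ⟨τ - 3, by omega⟩
  obtain ⟨e, rfl⟩ : ∃ e, d = e + 3 := ⟨d - 3, by omega⟩
  unfold T0
  rw [Finset.card_union_of_disjoint hdis, hB, Z, Finset.card_product, Int.card_Icc,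
    Finset.card_singleton, mul_one]
  have : (((t + 3 : ℕ) : ℤ) - 1) * ((e + 3 : ℕ) : ℤ) - 4 + 1 - -(((t + 3 : ℕ) : ℤ) - 3)
      = (((t + 2) * (e + 3) + t - 3 : ℕ) : ℤ) := by
    have h3 : 3 ≤ (t + 2) * (e + 3) + t := by nlinarith
    rw [Nat.cast_sub h3]
    push_cast
    ring
  rw [this, Int.toNat_natCast]
  have h3 : 3 ≤ (t + 2) * (e + 3) + t := by nlinarith
  have h4 : (t + 3 - 1) * (e + 3 + 1) = (t + 2) * (e + 3) + t + 2 := by
    have : t + 3 - 1 = t + 2 := by omega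
    rw [this]; ring
  omega

/-- The point set. -/
noncomputable def S (d τ : ℕ) : Finset (Fin d → ℝ) := by
  classical exact (T0 d τ).image (mk d)

theorem mem_S {d τ : ℕ} {x : Fin d → ℝ} : x ∈ S d τ ↔ ∃ a ∈ T0 d τ, mk d a = x := by
  classical
  unfold S
  rw [Finset.mem_image]

theorem card_S {d τ : ℕ} (hd : 3 ≤ d) (hτ : 3 ≤ τ) : (S d τ).card = (τ - 1) * (d + 1) + 1 := by
  classical
  unfold S
  rw [Finset.card_image_of_injective _ (mk_inj hd), card_T0 hd hτ]

/-- The three linear forms. -/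
noncomputable def ell {d : ℕ} (hd : 3 ≤ d) (k : Fin 3) : (Fin d → ℝ) →ₗ[ℝ] ℝ :=
  match k with
  | 0 => LinearMap.proj ⟨0, by omega⟩ + LinearMap.proj ⟨2, by omega⟩
  | 1 => (2 : ℝ) • LinearMap.proj ⟨0, by omega⟩ - (2 : ℝ) • LinearMap.proj ⟨1, by omega⟩
      - LinearMap.proj ⟨2, by omega⟩
  | 2 => (2 : ℝ) • LinearMap.proj ⟨0, by omega⟩ + (2 : ℝ) • LinearMap.proj ⟨1, by omega⟩
      - LinearMap.proj ⟨2, by omega⟩

/-- The three integer forms. -/
def iell (k : Fin 3) (a : ℤ × ℤ × ℤ) : ℤ :=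
  match k with
  | 0 => a.1 + a.2.2
  | 1 => 2 * a.1 - 2 * a.2.1 - a.2.2
  | 2 => 2 * a.1 + 2 * a.2.1 - a.2.2

theorem ell_mk {d : ℕ} (hd : 3 ≤ d) (k : Fin 3) (a : ℤ × ℤ × ℤ) :
    ell hd k (mk d a) = (iell k a : ℝ) := by
  fin_cases k <;> simp [ell, iell, mk]

theorem exists_nonpos {d : ℕ} {P : Set (Fin d → ℝ)} (L : (Fin d → ℝ) →ₗ[ℝ] ℝ)
    (h : (0 : Fin d → ℝ) ∈ convexHull ℝ P) : ∃ x ∈ P, L x ≤ 0 := by
  by_contra hcon
  push Not at hcon
  have hsub : convexHull ℝ P ⊆ {x | 0 < L x} :=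
    convexHull_min (fun x hx => hcon x hx) (convex_halfSpace_gt L.isLinear 0)
  have := hsub h
  simp at this

/-- The weights. -/
def om (a : ℤ × ℤ × ℤ) : ℕ :=
  if a = (-1, 1, -1) ∨ a = (-1, -1, -1) ∨ a = (-1, -1, 2) then 1
  else if a.1 < 0 then 2 else 0

/-- Classification of the index points on which one of the forms is not positive. -/
theorem classify {d τ : ℕ} {a : ℤ × ℤ × ℤ} (ha : a ∈ T0 d τ) (h0 : a ≠ (0, 0, 0)) :
    om a = 2 ∨
      ((iell 0 a ≤ 0 → a = (-1, 1, -1) ∨ a = (-1, -1, -1)) ∧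
       (iell 1 a ≤ 0 → a = (-1, 1, -1) ∨ a = (-1, -1, 2)) ∧
       (iell 2 a ≤ 0 → a = (-1, -1, -1) ∨ a = (-1, -1, 2))) := by
  unfold T0 at ha
  rw [Finset.mem_union] at ha
  rcases ha with ha | ha
  · rw [mem_Z] at ha
    obtain ⟨x, y, z⟩ := a
    obtain ⟨⟨h1, h2⟩, h3⟩ := ha
    simp only [Prod.mk.injEq] at h3
    obtain ⟨rfl, rfl⟩ := h3
    have hx : x ≠ 0 := fun h => h0 (by rw [h])
    rcases lt_or_gt_of_ne hx with hx | hx
    · left
      simp only [om]
      rw [if_neg (by simp), if_pos hx]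
    · right
      refine ⟨fun h => ?_, fun h => ?_, fun h => ?_⟩ <;> exfalso <;> simp only [iell] at h <;> omega
  · right
    rw [mem_B] at ha
    rcases ha with h | h | h | h | h | h <;> subst h <;> decide

theorem sum_om_ge {d τ : ℕ} {Q : Finset (ℤ × ℤ × ℤ)} (hQ : Q ⊆ T0 d τ) (h0 : (0, 0, 0) ∉ Q)
    (hk : ∀ k : Fin 3, ∃ a ∈ Q, iell k a ≤ 0) : 2 ≤ ∑ a ∈ Q, om a := by
  by_contra hcon
  have key : ∀ a ∈ Q, om a ≠ 2 := by
    intro a ha h
    have := Finset.single_le_sum (f := om) (fun i _ => Nat.zero_le _) ha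
    omega
  obtain ⟨a, haQ, ha⟩ := hk 0
  obtain ⟨b, hbQ, hb⟩ := hk 1
  obtain ⟨c, hcQ, hc⟩ := hk 2
  have ne0 : ∀ x ∈ Q, x ≠ (0, 0, 0) := fun x hx h => h0 (h ▸ hx)
  have ha' := ((classify (hQ haQ) (ne0 a haQ)).resolve_left (key a haQ)).1 ha
  have hb' := ((classify (hQ hbQ) (ne0 b hbQ)).resolve_left (key b hbQ)).2.1 hb
  have hc' := ((classify (hQ hcQ) (ne0 c hcQ)).resolve_left (key c hcQ)).2.2 hc
  have two : ∀ x y, x ∈ Q → y ∈ Q → x ≠ y → om x = 1 → om y = 1 → False := by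
    intro x y hx hy hxy h1 h2
    have hs : ∑ a ∈ ({x, y} : Finset (ℤ × ℤ × ℤ)), om a ≤ ∑ a ∈ Q, om a :=
      Finset.sum_le_sum_of_subset (by
        intro z hz
        rw [Finset.mem_insert, Finset.mem_singleton] at hz
        rcases hz with rfl | rfl <;> assumption)
    rw [Finset.sum_pair hxy, h1, h2] at hs
    omega
  rcases ha' with rfl | rfl <;> rcases hb' with rfl | rfl <;> rcases hc' with rfl | rfl
  · exact two _ _ haQ hcQ (by decide) (by decide) (by decide)
  · exact two _ _ haQ hcQ (by decide) (by decide) (by decide)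
  · exact two _ _ haQ hbQ (by decide) (by decide) (by decide)
  · exact two _ _ haQ hbQ (by decide) (by decide) (by decide)
  · exact two _ _ haQ hbQ (by decide) (by decide) (by decide)
  · exact two _ _ haQ hbQ (by decide) (by decide) (by decide)
  · exact two _ _ haQ hbQ (by decide) (by decide) (by decide)
  · exact two _ _ haQ hbQ (by decide) (by decide) (by decide)

theorem sum_union_le' (s t : Finset (ℤ × ℤ × ℤ)) (f : ℤ × ℤ × ℤ → ℕ) :
    ∑ a ∈ s ∪ t, f a ≤ ∑ a ∈ s, f a + ∑ a ∈ t, f a := by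
  have := Finset.sum_union_inter (s₁ := s) (s₂ := t) (f := f)
  omega

theorem sum_om_T0 {d τ : ℕ} (hτ : 3 ≤ τ) : ∑ a ∈ T0 d τ, om a ≤ 2 * (τ - 3) + 3 := by
  have hsub : T0 d τ ⊆ Z (-((τ : ℤ) - 3)) (-1) ∪ (Z 0 (((τ : ℤ) - 1) * d - 4) ∪ B) := by
    intro a ha
    unfold T0 at ha
    rw [Finset.mem_union, mem_Z] at ha
    rw [Finset.mem_union, Finset.mem_union, mem_Z, mem_Z]
    rcases ha with ⟨⟨h1, h2⟩, h3⟩ | ha
    · rcases lt_or_ge a.1 0 with h | h
      · left; exact ⟨⟨h1, by omega⟩, h3⟩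
      · right; left; exact ⟨⟨h, h2⟩, h3⟩
    · right; right; exact ha
  refine (Finset.sum_le_sum_of_subset hsub).trans ?_
  refine (sum_union_le' _ _ _).trans ?_
  have h1 : ∑ a ∈ Z (-((τ : ℤ) - 3)) (-1), om a ≤ 2 * (τ - 3) := by
    have hle : ∀ a ∈ Z (-((τ : ℤ) - 3)) (-1), om a ≤ 2 := by
      intro a _
      unfold om
      split_ifs <;> omega
    refine (Finset.sum_le_card_nsmul _ _ 2 hle).trans ?_
    rw [Z, Finset.card_product, Int.card_Icc, Finset.card_singleton, mul_one, smul_eq_mul]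
    omega
  have h2 : ∑ a ∈ Z 0 (((τ : ℤ) - 1) * d - 4) ∪ B, om a ≤ 3 := by
    refine (sum_union_le' _ _ _).trans ?_
    have h3 : ∑ a ∈ Z 0 (((τ : ℤ) - 1) * d - 4), om a = 0 := by
      refine Finset.sum_eq_zero (fun a ha => ?_)
      rw [mem_Z] at ha
      unfold om
      have : ¬ a.1 < 0 := by omega
      rw [if_neg, if_neg this]
      rintro (h | h | h) <;> rw [h] at this <;> simp at this
    have h4 : ∑ a ∈ B, om a = 3 := by decide
    omega
  omega

theorem zero_mem_S {d τ : ℕ} (hd : 3 ≤ d) (hτ : 3 ≤ τ) : (0 : Fin d → ℝ) ∈ S d τ := by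
  rw [mem_S]
  refine ⟨(0, 0, 0), ?_, mk_zero d⟩
  unfold T0
  rw [Finset.mem_union, mem_Z]
  left
  refine ⟨⟨?_, ?_⟩, rfl⟩
  · show -((τ : ℤ) - 3) ≤ 0
    omega
  · show (0 : ℤ) ≤ ((τ : ℤ) - 1) * d - 4
    have h1 : (3 : ℤ) ≤ d := by exact_mod_cast hd
    have h2 : (3 : ℤ) ≤ τ := by exact_mod_cast hτ
    nlinarith

/-- The origin is not a Tverberg point. -/
theorem zero_not_tverberg {d τ : ℕ} (hd : 3 ≤ d) (hτ : 3 ≤ τ) :
    (0 : Fin d → ℝ) ∉ tverbergPoints τ (S d τ : Set (Fin d → ℝ)) := by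
  classical
  rintro ⟨P, hdis, hU, hP⟩
  set Q : Fin τ → Finset (ℤ × ℤ × ℤ) := fun i => (T0 d τ).filter (fun a => mk d a ∈ P i) with hQ
  have hQdis : ∀ i j, i ≠ j → Disjoint (Q i) (Q j) := by
    intro i j hij
    rw [Finset.disjoint_left]
    intro a ha hb
    rw [hQ, Finset.mem_filter] at ha hb
    exact Set.disjoint_left.1 (hdis i j hij) ha.2 hb.2
  -- the part containing the origin
  have h0 : (0 : Fin d → ℝ) ∈ ⋃ i, P i := by
    rw [hU]; exact zero_mem_S hd hτ
  obtain ⟨i0, hi0⟩ := mem_iUnion.1 h0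
  have hge : ∀ i, i ≠ i0 → 2 ≤ ∑ a ∈ Q i, om a := by
    intro i hi
    apply sum_om_ge (d := d) (τ := τ) (Finset.filter_subset _ _)
    · intro h
      rw [Finset.mem_filter, mk_zero] at h
      exact Set.disjoint_left.1 (hdis i i0 hi) h.2 hi0
    · intro k
      obtain ⟨x, hx, hk⟩ := exists_nonpos (ell hd k) (hP i)
      have hxS : x ∈ S d τ := by
        have : x ∈ ⋃ i, P i := mem_iUnion.2 ⟨i, hx⟩
        rw [hU] at this
        exact this
      obtain ⟨a, ha, rfl⟩ := mem_S.1 hxS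
      refine ⟨a, ?_, ?_⟩
      · rw [Finset.mem_filter]; exact ⟨ha, hx⟩
      · rw [ell_mk] at hk
        exact_mod_cast hk
  have h1 : ∑ i ∈ Finset.univ.erase i0, (2 : ℕ) ≤ ∑ i ∈ Finset.univ.erase i0, ∑ a ∈ Q i, om a :=
    Finset.sum_le_sum (fun i hi => hge i (Finset.ne_of_mem_erase hi))
  have h2 : ∑ i ∈ Finset.univ.erase i0, ∑ a ∈ Q i, om a ≤ ∑ a ∈ T0 d τ, om a := by
    rw [← Finset.sum_biUnion]
    · apply Finset.sum_le_sum_of_subset
      intro a ha
      obtain ⟨i, _, hi⟩ := Finset.mem_biUnion.1 ha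
      exact Finset.filter_subset _ _ hi
    · intro i _ j _ hij
      exact hQdis i j hij
  have h3 : (Finset.univ.erase i0 : Finset (Fin τ)).card = τ - 1 := by
    rw [Finset.card_erase_of_mem (Finset.mem_univ _)]; simp
  rw [Finset.sum_const, h3, smul_eq_mul] at h1
  have h4 := sum_om_T0 (d := d) hτ
  omega

/-- The removed set for the separation step. -/
noncomputable def T1 (τ : ℕ) : Finset (ℤ × ℤ × ℤ) :=
  Z (-((τ : ℤ) - 3)) (-1) ∪ {(-1, 1, -1), (-1, -1, -1)}

theorem T1_card {τ : ℕ} (hτ : 3 ≤ τ) : (T1 τ).card ≤ τ - 1 := by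
  refine (Finset.card_union_le _ _).trans ?_
  rw [Z, Finset.card_product, Int.card_Icc, Finset.card_singleton, mul_one]
  have : ({(-1, 1, -1), (-1, -1, -1)} : Finset (ℤ × ℤ × ℤ)).card = 2 := by decide
  rw [this]
  omega

theorem T1_sub {d τ : ℕ} (hd : 3 ≤ d) (hτ : 3 ≤ τ) : T1 τ ⊆ T0 d τ := by
  intro a ha
  unfold T1 at ha
  unfold T0
  rw [Finset.mem_union] at ha ⊢
  rcases ha with ha | ha
  · left
    rw [mem_Z] at ha ⊢
    refine ⟨⟨ha.1.1, ?_⟩, ha.2⟩
    have h1 : (3 : ℤ) ≤ d := by exact_mod_cast hd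
    have h2 : (3 : ℤ) ≤ τ := by exact_mod_cast hτ
    nlinarith [ha.1.2]
  · right
    rw [Finset.mem_insert, Finset.mem_singleton] at ha
    rcases ha with rfl | rfl <;> decide

/-- The core lies in the origin together with an open half-space. -/
theorem core_sub {d τ : ℕ} (hd : 3 ≤ d) (hτ : 3 ≤ τ) :
    core (τ - 1) (S d τ : Set (Fin d → ℝ)) ⊆ {x | x = 0 ∨ 0 < ell hd 0 x} := by
  classical
  intro p hp
  have hT : (((T1 τ).image (mk d) : Finset (Fin d → ℝ)) : Set (Fin d → ℝ)) ⊆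
      (S d τ : Set (Fin d → ℝ)) := by
    intro x hx
    rw [Finset.coe_image] at hx
    obtain ⟨a, ha, rfl⟩ := hx
    exact mem_S.2 ⟨a, T1_sub hd hτ ha, rfl⟩
  have h1 := hp _ hT (Finset.card_image_le.trans (T1_card hτ))
  refine (convexHull_min ?_ ?_) h1
  · rintro x ⟨hxS, hxT⟩
    obtain ⟨a, ha, rfl⟩ := mem_S.1 hxS
    rcases eq_or_ne a (0, 0, 0) with h0 | h0
    · left; rw [h0, mk_zero]
    · right
      rw [ell_mk]
      by_contra hcon
      push Not at hcon
      have hi : iell 0 a ≤ 0 := by exact_mod_cast hcon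
      apply hxT
      rw [Finset.coe_image]
      refine ⟨a, ?_, rfl⟩
      rw [Finset.mem_coe]
      unfold T1
      rw [Finset.mem_union]
      unfold T0 at ha
      rw [Finset.mem_union] at ha
      rcases ha with ha | ha
      · left
        rw [mem_Z] at ha ⊢
        refine ⟨⟨ha.1.1, ?_⟩, ha.2⟩
        obtain ⟨x, y, z⟩ := a
        obtain ⟨⟨h1, h2⟩, h3⟩ := ha
        simp only [Prod.mk.injEq] at h3
        obtain ⟨rfl, rfl⟩ := h3
        simp only [iell] at hi
        have : x ≠ 0 := fun h => h0 (by rw [h])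
        show x ≤ -1
        omega
      · right
        rw [mem_B] at ha
        rcases ha with h | h | h | h | h | h <;> subst h <;> revert hi <;> decide
  · intro x hx y hy a b ha hb hab
    simp only [Set.mem_ofPred_eq] at hx hy ⊢
    rcases hx with rfl | hx <;> rcases hy with rfl | hy
    · left; simp
    · rcases eq_or_lt_of_le hb with h | h
      · left; rw [← h]; simp
      · right; rw [map_add, map_smul, map_smul, map_zero]; simp only [smul_zero, zero_add]
        rw [smul_eq_mul]; exact mul_pos h hy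
    · rcases eq_or_lt_of_le ha with h | h
      · left; rw [← h]; simp
      · right; rw [map_add, map_smul, map_smul, map_zero]; simp only [smul_zero, add_zero]
        rw [smul_eq_mul]; exact mul_pos h hx
    · right
      rw [map_add, map_smul, map_smul, smul_eq_mul, smul_eq_mul]
      rcases eq_or_lt_of_le ha with h | h
      · rw [← h] at hab ⊢
        have : b = 1 := by linarith
        rw [this]; linarith
      · have := mul_pos h hx
        have := mul_nonneg hb hy.le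
        linarith

theorem zero_not_conv {d τ : ℕ} (hd : 3 ≤ d) (hτ : 3 ≤ τ) :
    (0 : Fin d → ℝ) ∉ convexHull ℝ (tverbergPoints τ (S d τ : Set (Fin d → ℝ))) := by
  intro h
  have hsub : tverbergPoints τ (S d τ : Set (Fin d → ℝ)) ⊆ {x | 0 < ell hd 0 x} := by
    intro x hx
    have h1 := core_sub hd hτ (tverberg_subset_core τ (by omega) _ hx)
    rcases h1 with h1 | h1
    · exact absurd (h1 ▸ hx) (zero_not_tverberg hd hτ)
    · exact h1
  have := convexHull_min hsub (convex_halfSpace_gt (ell hd 0).isLinear 0) h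
  simp at this

theorem conv4 {d : ℕ} {C : Set (Fin d → ℝ)} (hC : Convex ℝ C) {x y z w : Fin d → ℝ}
    (hx : x ∈ C) (hy : y ∈ C) (hz : z ∈ C) (hw : w ∈ C) {a b c e : ℝ} (ha : 0 ≤ a) (hb : 0 ≤ b)
    (hc : 0 ≤ c) (he : 0 ≤ e) (hs : a + b + c + e = 1) (h0 : a • x + b • y + c • z + e • w = 0) :
    (0 : Fin d → ℝ) ∈ C := by
  have := hC.sum_mem (t := Finset.univ) (w := ![a, b, c, e]) (z := ![x, y, z, w])
    (by intro i _; fin_cases i <;> simp [ha, hb, hc, he])
    (by rw [Fin.sum_univ_four]; simpa using hs)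
    (by intro i _; fin_cases i <;> simp [hx, hy, hz, hw])
  rw [Fin.sum_univ_four] at this
  simp only [Matrix.cons_val_zero, Matrix.cons_val_one, Matrix.cons_val] at this
  rwa [h0] at this

theorem mk_comb {d : ℕ} (a b c e : ℝ) (x y z w : ℤ × ℤ × ℤ)
    (h1 : a * x.1 + b * y.1 + c * z.1 + e * w.1 = 0)
    (h2 : a * x.2.1 + b * y.2.1 + c * z.2.1 + e * w.2.1 = 0)
    (h3 : a * x.2.2 + b * y.2.2 + c * z.2.2 + e * w.2.2 = 0) :
    a • mk d x + b • mk d y + c • mk d z + e • mk d w = 0 := by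
  funext i
  simp only [Pi.add_apply, Pi.smul_apply, smul_eq_mul, mk, Pi.zero_apply]
  split_ifs
  · exact h1
  · exact h2
  · exact h3
  · simp

/-- The origin lies in the core. -/
theorem zero_mem_core {d τ : ℕ} (hd : 3 ≤ d) (hτ : 3 ≤ τ) :
    (0 : Fin d → ℝ) ∈ core (τ - 1) (S d τ : Set (Fin d → ℝ)) := by
  classical
  intro T hT hc
  by_contra hcon
  set C := convexHull ℝ ((S d τ : Set (Fin d → ℝ)) \ (T : Set (Fin d → ℝ))) with hCdef
  have hC : Convex ℝ C := convex_convexHull ℝ _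
  have hin : ∀ a ∈ T0 d τ, mk d a ∉ T → mk d a ∈ C := by
    intro a ha haT
    exact subset_convexHull ℝ _ ⟨mem_S.2 ⟨a, ha, rfl⟩, haT⟩
  have h0T : (0 : Fin d → ℝ) ∈ T := by
    by_contra h
    exact hcon (subset_convexHull ℝ _ ⟨zero_mem_S hd hτ, h⟩)
  have hd' : (3 : ℤ) ≤ d := by exact_mod_cast hd
  have hτ' : (3 : ℤ) ≤ τ := by exact_mod_cast hτ
  -- counting tool
  have hcount : ∀ F : Finset (ℤ × ℤ × ℤ), (∀ a ∈ F, mk d a ∈ T) → F.card ≤ τ - 1 := by
    intro F hF
    have h1 : (F.image (mk d)).card = F.card := Finset.card_image_of_injective _ (mk_inj hd)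
    have h2 : F.image (mk d) ⊆ T := by
      intro x hx
      obtain ⟨a, ha, rfl⟩ := Finset.mem_image.1 hx
      exact hF a ha
    have := Finset.card_le_card h2
    omega
  have hBT : ∀ a ∈ B, a ∈ T0 d τ := fun a ha => Finset.mem_union_right _ ha
  have hV : ∀ a ∈ B, mk d a ∉ T → mk d a ∈ C := fun a ha => hin a (hBT a ha)
  -- the three simplices
  have s1 : mk d (-1, 1, -1) ∈ T ∨ mk d (-1, -1, -1) ∈ T ∨ mk d (1, 0, 1) ∈ T := by
    by_contra h
    push Not at h
    obtain ⟨h1, h2, h3⟩ := h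
    have e1 := hV _ (by decide) h1
    have e2 := hV _ (by decide) h2
    have e3 := hV _ (by decide) h3
    exact hcon (conv4 hC e1 e2 e3 e3 (a := 1 / 4) (b := 1 / 4) (c := 1 / 4) (e := 1 / 4)
      (by norm_num) (by norm_num) (by norm_num) (by norm_num) (by norm_num)
      (mk_comb _ _ _ _ _ _ _ _ (by norm_num) (by norm_num) (by norm_num)))
  have s2 : mk d (-1, -1, -1) ∈ T ∨ mk d (-1, -1, 2) ∈ T ∨ mk d (2, 2, -1) ∈ T := by
    by_contra h
    push Not at h
    obtain ⟨h1, h2, h3⟩ := h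
    have e1 := hV _ (by decide) h1
    have e2 := hV _ (by decide) h2
    have e3 := hV _ (by decide) h3
    exact hcon (conv4 hC e1 e2 e3 e3 (a := 1 / 3) (b := 1 / 3) (c := 1 / 3) (e := 0)
      (by norm_num) (by norm_num) (by norm_num) (by norm_num) (by norm_num)
      (mk_comb _ _ _ _ _ _ _ _ (by norm_num) (by norm_num) (by norm_num)))
  have s3 : mk d (-1, 1, -1) ∈ T ∨ mk d (-1, -1, 2) ∈ T ∨ mk d (1, 0, 1) ∈ T ∨
      mk d (2, -1, -1) ∈ T := by
    by_contra h
    push Not at h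
    obtain ⟨h1, h2, h3, h4⟩ := h
    have e1 := hV _ (by decide) h1
    have e2 := hV _ (by decide) h2
    have e3 := hV _ (by decide) h3
    have e4 := hV _ (by decide) h4
    exact hcon (conv4 hC e1 e2 e3 e4 (a := 2 / 5) (b := 1 / 5) (c := 1 / 5) (e := 1 / 5)
      (by norm_num) (by norm_num) (by norm_num) (by norm_num) (by norm_num)
      (mk_comb _ _ _ _ _ _ _ _ (by norm_num) (by norm_num) (by norm_num)))
  -- two of the six points are removed
  have hpair : ∃ x ∈ B, ∃ y ∈ B, x ≠ y ∧ mk d x ∈ T ∧ mk d y ∈ T := by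
    rcases s1 with h1 | h1 | h1 <;> rcases s2 with h2 | h2 | h2
    · exact ⟨_, by decide, _, by decide, by decide, h1, h2⟩
    · exact ⟨_, by decide, _, by decide, by decide, h1, h2⟩
    · exact ⟨_, by decide, _, by decide, by decide, h1, h2⟩
    · rcases s3 with h3 | h3 | h3 | h3 <;> exact ⟨_, by decide, _, by decide, by decide, h1, h3⟩
    · exact ⟨_, by decide, _, by decide, by decide, h1, h2⟩
    · exact ⟨_, by decide, _, by decide, by decide, h1, h2⟩
    · exact ⟨_, by decide, _, by decide, by decide, h1, h2⟩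
    · exact ⟨_, by decide, _, by decide, by decide, h1, h2⟩
    · exact ⟨_, by decide, _, by decide, by decide, h1, h2⟩
  by_cases hneg : ∀ j : ℤ, -((τ : ℤ) - 3) ≤ j → j ≤ -1 → mk d (j, 0, 0) ∈ T
  · obtain ⟨x, hx, y, hy, hxy, hxT, hyT⟩ := hpair
    have hBne : ∀ a ∈ B, a.2 ≠ (0, 0) := by decide
    have hF := hcount (Z (-((τ : ℤ) - 3)) 0 ∪ {x, y}) (by
      intro a ha
      rw [Finset.mem_union, mem_Z, Finset.mem_insert, Finset.mem_singleton] at ha
      rcases ha with ⟨⟨h1, h2⟩, h3⟩ | rfl | rfl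
      · obtain ⟨a1, a2⟩ := a
        simp only at h1 h2 h3
        subst h3
        rcases eq_or_lt_of_le h2 with h | h
        · subst h; rw [mk_zero]; exact h0T
        · exact hneg _ h1 (by omega)
      · exact hxT
      · exact hyT)
    have hdis : Disjoint (Z (-((τ : ℤ) - 3)) 0) {x, y} := by
      rw [Finset.disjoint_left]
      intro a ha hb
      rw [mem_Z] at ha
      rw [Finset.mem_insert, Finset.mem_singleton] at hb
      rcases hb with rfl | rfl
      · exact hBne _ hx ha.2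
      · exact hBne _ hy ha.2
    rw [Finset.card_union_of_disjoint hdis, Finset.card_pair hxy, Z, Finset.card_product,
      Int.card_Icc, Finset.card_singleton, mul_one] at hF
    omega
  · push Not at hneg
    obtain ⟨j, hj1, hj2, hjT⟩ := hneg
    have hjC : mk d (j, 0, 0) ∈ C := by
      refine hin _ ?_ hjT
      unfold T0
      rw [Finset.mem_union, mem_Z]
      left
      refine ⟨⟨hj1, ?_⟩, rfl⟩
      show j ≤ ((τ : ℤ) - 1) * d - 4
      nlinarith
    have hpos : ∀ m : ℤ, 1 ≤ m → m ≤ ((τ : ℤ) - 1) * d - 4 → mk d (m, 0, 0) ∈ T := by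
      intro m hm1 hm2
      by_contra hmT
      have hmC : mk d (m, 0, 0) ∈ C := by
        refine hin _ ?_ hmT
        unfold T0
        rw [Finset.mem_union, mem_Z]
        left
        refine ⟨⟨?_, hm2⟩, rfl⟩
        show -((τ : ℤ) - 3) ≤ m
        omega
      have hjr : (j : ℝ) ≤ -1 := by exact_mod_cast hj2
      have hmr : (1 : ℝ) ≤ m := by exact_mod_cast hm1
      have hsum : (0 : ℝ) < (m : ℝ) - j := by linarith
      refine hcon (conv4 hC hjC hmC hmC hmC (a := m / (m - j)) (b := -j / (m - j)) (c := 0) (e := 0)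
        (by positivity) (by apply div_nonneg <;> linarith) le_rfl le_rfl ?_
        (mk_comb _ _ _ _ _ _ _ _ ?_ (by simp) (by simp)))
      · field_simp; ring
      · simp only [zero_mul, add_zero]
        field_simp
        ring
    have hF := hcount (Z 0 (((τ : ℤ) - 1) * d - 4)) (by
      intro a ha
      rw [mem_Z] at ha
      obtain ⟨a1, a2⟩ := a
      obtain ⟨⟨h1, h2⟩, h3⟩ := ha
      simp only at h1 h2 h3
      subst h3
      rcases eq_or_lt_of_le h1 with h | h
      · subst h; rw [mk_zero]; exact h0T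
      · exact hpos _ (by omega) h2)
    rw [Z, Finset.card_product, Int.card_Icc, Finset.card_singleton, mul_one] at hF
    have h1 : (τ : ℤ) ≤ ((τ : ℤ) - 1) * d - 4 + 1 - 0 := by nlinarith
    omega

/-- **Q1 is false in every dimension `d ≥ 3` and for every `τ ≥ 3`.** -/
theorem result : ∀ d τ : ℕ, 3 ≤ d → 3 ≤ τ →
    ∃ S : Finset (Fin d → ℝ), S.card = (τ - 1) * (d + 1) + 1 ∧
      convexHull ℝ (tverbergPoints τ (S : Set (Fin d → ℝ))) ⊂ core (τ - 1) (S : Set (Fin d → ℝ)) := by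
  intro d τ hd hτ
  refine ⟨S d τ, card_S hd hτ, ?_, ?_⟩
  · exact convexHull_min (tverberg_subset_core τ (by omega) _) (core_convex _ _)
  · intro h
    exact zero_not_conv hd hτ (h (zero_mem_core hd hτ))

end Pool.Agent.Results.MP_8fed12_co.TverbergCore
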